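import Pool.Agent.Y746.OJ.Stm
import Pool.Agent.Y555.OM.Ker

/-! Project OJ (helper746): S_KV, properties of the kernel of project OM (helper258). -/

set_option autoImplicit false

namespace Pool.Agent.Y258.OJ.KV

open MeasureTheory Real Set
open Pool.Agent.Y746.OM Pool.Agent.Y746.OJ Pool.Agent.Y555.OM.Ker

/-! ### bounds -/

theorem norm_sin_le (v : ℂ) : ‖Complex.sin v‖ ≤ Real.exp |v.im| := by
  unfold Complex.sin
  rw [norm_div, norm_mul, Complex.norm_I, mul_one]
  have h0 : ∀ w : ℂ, ‖Complex.exp w‖ ≤ Real.exp |w.re| := fun w => by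
    rw [Complex.norm_exp]
    exact Real.exp_le_exp.2 (le_abs_self _)
  have h1 : ‖Complex.exp (v * Complex.I)‖ ≤ Real.exp |v.im| := by
    refine (h0 _).trans_eq ?_
    simp
  have h2 : ‖Complex.exp (-v * Complex.I)‖ ≤ Real.exp |v.im| := by
    refine (h0 _).trans_eq ?_
    simp
  have h3 := norm_sub_le (Complex.exp (-v * Complex.I)) (Complex.exp (v * Complex.I))
  have h4 : ‖(2 : ℂ)‖ = 2 := by simp
  rw [h4, div_le_iff₀ (by norm_num)]
  linarith

theorem exp_half (x : ℝ) : Real.exp (-x ^ 2 / 2) ≤ Real.exp (-x ^ 2 / 4) :=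
  Real.exp_le_exp.2 (by nlinarith [sq_nonneg x])

theorem norm_gen {B : ℝ} (hB : 1 ≤ B) (z : ℂ) (E : ℝ) (hz : |z.im| ≤ 1) (hE : B * |z.im| ≤ E) :
    ‖KB B z‖ ≤ 2 * B * Real.exp E * Real.exp (-z.re ^ 2 / 2) := by
  have hB0 : 0 < B := by linarith
  unfold KB
  rw [norm_mul, Complex.norm_exp, sq_re, Real.exp_add]
  have h1 : ‖∫ u in (0 : ℝ)..B, ((1 - u / B : ℝ) : ℂ) * (2 * Complex.cos (u * z))‖ ≤
      B / 2 * (2 * Real.exp E) := by
    apply wnorm hB0
    intro u hu0 huB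
    rw [norm_mul]
    have h2 : ‖(2 : ℂ)‖ = 2 := by simp
    rw [h2]
    apply mul_le_mul_of_nonneg_left _ (by norm_num)
    refine (norm_cos_le _).trans (Real.exp_le_exp.mpr ?_)
    rw [Complex.im_ofReal_mul, abs_mul, abs_of_nonneg hu0]
    exact (mul_le_mul_of_nonneg_right huB (abs_nonneg _)).trans hE
  have h3 : Real.exp (z.im ^ 2 / 2) ≤ 2 := by
    have h4 : z.im ^ 2 ≤ 1 := by
      rw [← sq_abs]
      nlinarith [abs_nonneg z.im]
    have := exp_le (s := z.im ^ 2 / 2) (by positivity) (by linarith)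
    linarith
  have h5 := Real.exp_pos (-z.re ^ 2 / 2)
  have h6 := Real.exp_pos E
  calc Real.exp (-z.re ^ 2 / 2) * Real.exp (z.im ^ 2 / 2) *
        ‖∫ u in (0 : ℝ)..B, ((1 - u / B : ℝ) : ℂ) * (2 * Complex.cos (u * z))‖ ≤
        Real.exp (-z.re ^ 2 / 2) * 2 * (B / 2 * (2 * Real.exp E)) := by
        apply mul_le_mul _ h1 (norm_nonneg _) (by positivity)
        exact mul_le_mul_of_nonneg_left h3 h5.le
    _ = 2 * B * Real.exp E * Real.exp (-z.re ^ 2 / 2) := by ring

/-! ### differentiability -/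

theorem diff_int {B : ℝ} (hB : 0 < B) : Differentiable ℂ
    (fun z : ℂ => ∫ u in (0 : ℝ)..B, ((1 - u / B : ℝ) : ℂ) * (2 * Complex.cos (u * z))) := by
  intro z₀
  have key := intervalIntegral.hasDerivAt_integral_of_dominated_loc_of_deriv_le
    (𝕜 := ℂ) (μ := volume) (a := 0) (b := B)
    (F := fun (z : ℂ) (u : ℝ) => ((1 - u / B : ℝ) : ℂ) * (2 * Complex.cos (u * z)))
    (F' := fun (z : ℂ) (u : ℝ) => ((1 - u / B : ℝ) : ℂ) * (2 * (-Complex.sin (u * z) * u)))
    (x₀ := z₀) (s := Metric.ball z₀ 1)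
    (bound := fun _ => 2 * (Real.exp (B * (‖z₀‖ + 1)) * B)) (Metric.ball_mem_nhds _ one_pos)
    (Filter.Eventually.of_forall fun z => by
      apply Continuous.aestronglyMeasurable
      fun_prop)
    (by
      apply Continuous.intervalIntegrable
      fun_prop)
    (by
      apply Continuous.aestronglyMeasurable
      fun_prop)
    (by
      refine Filter.Eventually.of_forall fun u hu z hz => ?_
      rw [uIoc_of_le hB.le] at hu
      rw [norm_mul, Complex.norm_real, Real.norm_of_nonneg (wnonneg hB hu.2), norm_mul,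
        norm_mul, norm_neg, Complex.norm_real, Real.norm_of_nonneg hu.1.le]
      have h2 : ‖(2 : ℂ)‖ = 2 := by simp
      rw [h2]
      have h3 : 1 - u / B ≤ 1 := by
        have : 0 ≤ u / B := div_nonneg hu.1.le hB.le
        linarith
      have hzn : ‖z‖ ≤ ‖z₀‖ + 1 := by
        have h4 : ‖z - z₀‖ < 1 := by
          rw [← dist_eq_norm]
          exact hz
        have h5 := norm_add_le (z - z₀) z₀
        rw [sub_add_cancel] at h5
        linarith
      have h4 : ‖Complex.sin (u * z)‖ ≤ Real.exp (B * (‖z₀‖ + 1)) := by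
        refine (norm_sin_le _).trans (Real.exp_le_exp.mpr ?_)
        rw [Complex.im_ofReal_mul, abs_mul, abs_of_nonneg hu.1.le]
        exact mul_le_mul hu.2 ((Complex.abs_im_le_norm z).trans hzn) (abs_nonneg _) hB.le
      have h5 : ‖Complex.sin (u * z)‖ * u ≤ Real.exp (B * (‖z₀‖ + 1)) * B :=
        mul_le_mul h4 hu.2 hu.1.le (Real.exp_pos _).le
      calc (1 - u / B) * (2 * (‖Complex.sin (u * z)‖ * u)) ≤
          1 * (2 * (Real.exp (B * (‖z₀‖ + 1)) * B)) := by
            apply mul_le_mul h3 _ (mul_nonneg (by norm_num)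
              (mul_nonneg (norm_nonneg _) hu.1.le)) (by norm_num)
            linarith
        _ = 2 * (Real.exp (B * (‖z₀‖ + 1)) * B) := one_mul _)
    (by
      apply Continuous.intervalIntegrable
      fun_prop)
    (by
      refine Filter.Eventually.of_forall fun u _ z _ => ?_
      have h1 : HasDerivAt (fun z : ℂ => (u : ℂ) * z) (u : ℂ) z := by
        simpa using (hasDerivAt_id z).const_mul (u : ℂ)
      exact ((h1.ccos).const_mul 2).const_mul _)
  exact key.2.differentiableAt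

theorem KB_diff {B : ℝ} (hB : 0 < B) : Differentiable ℂ (KB B) := by
  unfold KB
  apply Differentiable.mul
  · fun_prop
  · exact diff_int hB

/-! ### the imaginary part -/

theorem im_prod (z : ℂ) (u : ℝ) : (Complex.exp (-z ^ 2 / 2) * Complex.cos (u * z)).im =
    -(Real.exp (-z.re ^ 2 / 2) * (Real.exp (z.im ^ 2 / 2) *
      (Real.cos (z.re * z.im) * (Real.sin (u * z.re) * Real.sinh (u * z.im)) +
      Real.sin (z.re * z.im) * (Real.cos (u * z.re) * Real.cosh (u * z.im))))) := by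
  have hc : Complex.cos (u * z) = ((Real.cos (u * z.re) * Real.cosh (u * z.im) : ℝ) : ℂ) +
      ((-(Real.sin (u * z.re) * Real.sinh (u * z.im)) : ℝ) : ℂ) * Complex.I := by
    rw [Complex.cos_eq, Complex.re_ofReal_mul, Complex.im_ofReal_mul]
    push_cast
    ring
  have hcre : (Complex.cos (u * z)).re = Real.cos (u * z.re) * Real.cosh (u * z.im) := by
    rw [hc, re_aux]
  have hcim : (Complex.cos (u * z)).im = -(Real.sin (u * z.re) * Real.sinh (u * z.im)) := by
    rw [hc, im_aux]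
  rw [Complex.mul_im, Complex.exp_re, Complex.exp_im, hcre, hcim, sq_re, sq_im, Real.cos_neg,
    Real.sin_neg, Real.exp_add]
  ring

theorem elem2 {x y u B : ℝ} (hB : 1 ≤ B) (hu0 : 0 ≤ u) (huB : u ≤ B) (hy : |y| * B ≤ 1) :
    |Real.exp (y ^ 2 / 2) *
      (Real.cos (x * y) * (Real.sin (u * x) * Real.sinh (u * y)) +
      Real.sin (x * y) * (Real.cos (u * x) * Real.cosh (u * y)))| ≤
      8 * |y| * B * (1 + x ^ 2) := by
  have hy0 : 0 ≤ |y| := abs_nonneg y
  have hy1 : |y| ≤ 1 := by nlinarith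
  have hysq : y ^ 2 ≤ 1 := by
    rw [← sq_abs]
    nlinarith
  have huy : |u * y| ≤ 1 := by
    rw [abs_mul, abs_of_nonneg hu0]
    nlinarith
  have hE1 : Real.exp (y ^ 2 / 2) ≤ 2 := by
    have := exp_le (s := y ^ 2 / 2) (by positivity) (by linarith)
    linarith
  have hc1 := cosh_le huy
  have huysq : (u * y) ^ 2 ≤ 1 := by
    rw [← sq_abs]
    nlinarith [abs_nonneg (u * y)]
  have hc0 : 1 ≤ Real.cosh (u * y) := Real.one_le_cosh _
  have hs1 := sinh_le huy
  have hsin : |Real.sin (x * y)| ≤ |x * y| := Real.abs_sin_le_abs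
  have hca : |Real.cos (x * y)| ≤ 1 := Real.abs_cos_le_one _
  have hcb : |Real.cos (u * x)| ≤ 1 := Real.abs_cos_le_one _
  have hsb : |Real.sin (u * x)| ≤ 1 := Real.abs_sin_le_one _
  rw [abs_mul, abs_of_pos (Real.exp_pos _)]
  have b1 : |Real.cos (x * y) * (Real.sin (u * x) * Real.sinh (u * y))| ≤ 2 * (B * |y|) := by
    rw [abs_mul, abs_mul]
    have c0 : |u * y| ≤ B * |y| := by
      rw [abs_mul, abs_of_nonneg hu0]
      exact mul_le_mul_of_nonneg_right huB hy0
    have c1 : |Real.sin (u * x)| * |Real.sinh (u * y)| ≤ 1 * (2 * (B * |y|)) :=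
      mul_le_mul hsb (hs1.trans (by linarith)) (abs_nonneg _) (by norm_num)
    have c2 := mul_le_mul hca c1 (by positivity) (by norm_num : (0 : ℝ) ≤ 1)
    linarith
  have b2 : |Real.sin (x * y) * (Real.cos (u * x) * Real.cosh (u * y))| ≤ 2 * (|x| * |y|) := by
    rw [abs_mul, abs_mul, abs_of_pos (by linarith : 0 < Real.cosh (u * y))]
    have c1 : |Real.cos (u * x)| * Real.cosh (u * y) ≤ 1 * 2 :=
      mul_le_mul hcb (by linarith) (by linarith) (by norm_num)
    have c2 := mul_le_mul hsin c1 (by positivity) (abs_nonneg (x * y))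
    rw [abs_mul x y] at c2
    linarith
  have b3 := abs_add_le (Real.cos (x * y) * (Real.sin (u * x) * Real.sinh (u * y)))
    (Real.sin (x * y) * (Real.cos (u * x) * Real.cosh (u * y)))
  have hxa : 0 ≤ |x| := abs_nonneg x
  have hx2 : |x| ^ 2 = x ^ 2 := sq_abs x
  have b4 : B + |x| ≤ 2 * B * (1 + x ^ 2) := by
    have h1 : |x| ≤ 1 + x ^ 2 := by nlinarith [sq_nonneg (|x| - 1)]
    have h2 : 0 ≤ 1 + x ^ 2 := by positivity
    have h3 : 1 + x ^ 2 ≤ B * (1 + x ^ 2) := by
      have := mul_le_mul_of_nonneg_right hB h2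
      linarith
    have h4 : B ≤ B * (1 + x ^ 2) := by nlinarith [sq_nonneg x]
    linarith
  calc Real.exp (y ^ 2 / 2) * |Real.cos (x * y) * (Real.sin (u * x) * Real.sinh (u * y)) +
      Real.sin (x * y) * (Real.cos (u * x) * Real.cosh (u * y))| ≤
      2 * (2 * (B * |y|) + 2 * (|x| * |y|)) := by
        apply mul_le_mul hE1 (b3.trans (add_le_add b1 b2)) (abs_nonneg _) (by norm_num)
    _ = 4 * |y| * (B + |x|) := by ring
    _ ≤ 4 * |y| * (2 * B * (1 + x ^ 2)) := mul_le_mul_of_nonneg_left b4 (by positivity)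
    _ = 8 * |y| * B * (1 + x ^ 2) := by ring

theorem KB_im {B : ℝ} (hB : 1 ≤ B) (z : ℂ) (hz : |z.im| * B ≤ 1) :
    |(KB B z).im| ≤ 32 * |z.im| * B ^ 2 * Real.exp (-z.re ^ 2 / 4) := by
  have hB0 : 0 < B := by linarith
  have h1 : (KB B z).im = ∫ u in (0 : ℝ)..B, (1 - u / B) *
      (2 * (Complex.exp (-z ^ 2 / 2) * Complex.cos (u * z)).im) := by
    have h2 : KB B z = ∫ u in (0 : ℝ)..B, Complex.exp (-z ^ 2 / 2) *
        (((1 - u / B : ℝ) : ℂ) * (2 * Complex.cos (u * z))) := by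
      unfold KB
      rw [intervalIntegral.integral_const_mul]
    rw [h2]
    have h3 := Complex.imCLM.intervalIntegral_comp_comm (μ := volume) (a := 0) (b := B)
      (f := fun u : ℝ => Complex.exp (-z ^ 2 / 2) *
        (((1 - u / B : ℝ) : ℂ) * (2 * Complex.cos (u * z)))) (by
        apply Continuous.intervalIntegrable
        fun_prop)
    rw [Complex.imCLM_apply] at h3
    rw [← h3]
    apply intervalIntegral.integral_congr
    intro u _
    show (Complex.exp (-z ^ 2 / 2) * (((1 - u / B : ℝ) : ℂ) * (2 * Complex.cos (u * z)))).im = _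
    have : Complex.exp (-z ^ 2 / 2) * (((1 - u / B : ℝ) : ℂ) * (2 * Complex.cos (u * z))) =
        (((1 - u / B) * 2 : ℝ) : ℂ) * (Complex.exp (-z ^ 2 / 2) * Complex.cos (u * z)) := by
      push_cast
      ring
    rw [this, Complex.im_ofReal_mul]
    ring
  rw [h1]
  set M : ℝ := 2 * (Real.exp (-z.re ^ 2 / 2) * (8 * |z.im| * B * (1 + z.re ^ 2))) with hM
  have h3 : ‖∫ u in (0 : ℝ)..B, (1 - u / B) *
      (2 * (Complex.exp (-z ^ 2 / 2) * Complex.cos (u * z)).im)‖ ≤ B / 2 * M := by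
    rw [← wint hB0 M]
    apply intervalIntegral.norm_integral_le_of_norm_le hB0.le
    · refine Filter.Eventually.of_forall fun u hu => ?_
      rw [im_prod]
      rw [norm_mul, Real.norm_of_nonneg (wnonneg hB0 hu.2)]
      apply mul_le_mul_of_nonneg_left _ (wnonneg hB0 hu.2)
      rw [norm_mul, norm_neg, norm_mul, Real.norm_of_nonneg (by norm_num : (0 : ℝ) ≤ 2),
        Real.norm_of_nonneg (Real.exp_pos _).le, hM]
      apply mul_le_mul_of_nonneg_left _ (by norm_num)
      apply mul_le_mul_of_nonneg_left _ (Real.exp_pos _).le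
      exact elem2 hB hu.1.le hu.2 hz
    · apply Continuous.intervalIntegrable
      fun_prop
  rw [Real.norm_eq_abs] at h3
  refine h3.trans ?_
  have h4 := poly_exp z.re
  have h5 : 0 ≤ 8 * |z.im| * B ^ 2 := by positivity
  calc B / 2 * M = 8 * |z.im| * B ^ 2 * ((1 + z.re ^ 2) * Real.exp (-z.re ^ 2 / 2)) := by
        rw [hM]
        ring
    _ ≤ 8 * |z.im| * B ^ 2 * (4 * Real.exp (-z.re ^ 2 / 4)) := mul_le_mul_of_nonneg_left h4 h5
    _ = 32 * |z.im| * B ^ 2 * Real.exp (-z.re ^ 2 / 4) := by ring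

/-! ### the Fourier transform -/

theorem gauss_c (c : ℝ) : ∫ x : ℝ, Complex.exp (Complex.I * c * x) *
    Complex.exp (-(1 / 2) * x ^ 2) = ((Real.sqrt (2 * Real.pi) * Real.exp (-c ^ 2 / 2) : ℝ) : ℂ) := by
  have h1 := fourierIntegral_gaussian (b := 1 / 2) (by norm_num) (c : ℂ)
  rw [h1]
  have e3 : ((Real.pi : ℂ) / (1 / 2)) = ((2 * Real.pi : ℝ) : ℂ) := by push_cast; ring
  have e4 : (-(c : ℂ) ^ 2 / (4 * (1 / 2))) = ((-c ^ 2 / 2 : ℝ) : ℂ) := by push_cast; ring
  have e5 : (1 / 2 : ℂ) = ((1 / 2 : ℝ) : ℂ) := by push_cast; ring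
  rw [e3, e4, e5, ← Complex.ofReal_cpow (by positivity), ← Complex.ofReal_exp,
    ← Complex.ofReal_mul, Real.sqrt_eq_rpow]

theorem gauss_int (c : ℝ) : Integrable fun x : ℝ => Complex.exp (Complex.I * c * x) *
    Complex.exp (-(1 / 2) * x ^ 2) := by
  refine gint.mono' (by
    apply Continuous.aestronglyMeasurable
    fun_prop) (Filter.Eventually.of_forall fun x => ?_)
  rw [norm_mul, Complex.norm_exp, Complex.norm_exp]
  have e1 : (Complex.I * c * x).re = 0 := by simp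
  have e2 : (-(1 / 2) * x ^ 2 : ℂ) = ((-x ^ 2 / 2 : ℝ) : ℂ) := by push_cast; ring
  rw [e1, e2, Complex.ofReal_re, Real.exp_zero, one_mul]

/-- the integrand -/
noncomputable def Gi (ξ B v u : ℝ) : ℂ :=
  ((1 - u / B : ℝ) : ℂ) * (Complex.exp (Complex.I * ((u - ξ : ℝ) : ℂ) * v) *
    Complex.exp (-(1 / 2) * v ^ 2) + Complex.exp (Complex.I * ((-(u + ξ) : ℝ) : ℂ) * v) *
    Complex.exp (-(1 / 2) * v ^ 2))

theorem Gi_eq (ξ B v : ℝ) : KB B (v : ℂ) * Complex.exp (-(ξ : ℂ) * (v : ℂ) * Complex.I) =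
    ∫ u in (0 : ℝ)..B, Gi ξ B v u := by
  unfold KB
  rw [mul_comm, ← mul_assoc, ← intervalIntegral.integral_const_mul]
  apply intervalIntegral.integral_congr
  intro u _
  show Complex.exp (-(ξ : ℂ) * (v : ℂ) * Complex.I) * Complex.exp (-(v : ℂ) ^ 2 / 2) *
    (((1 - u / B : ℝ) : ℂ) * (2 * Complex.cos (u * v))) = Gi ξ B v u
  unfold Gi
  rw [Complex.cos]
  have e1 : Complex.exp (Complex.I * ((u - ξ : ℝ) : ℂ) * v) =
      Complex.exp (-(ξ : ℂ) * (v : ℂ) * Complex.I) * Complex.exp ((u : ℂ) * v * Complex.I) := by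
    rw [← Complex.exp_add]
    congr 1
    push_cast
    ring
  have e2 : Complex.exp (Complex.I * ((-(u + ξ) : ℝ) : ℂ) * v) =
      Complex.exp (-(ξ : ℂ) * (v : ℂ) * Complex.I) * Complex.exp (-((u : ℂ) * v) * Complex.I) := by
    rw [← Complex.exp_add]
    congr 1
    push_cast
    ring
  have e3 : Complex.exp (-(1 / 2) * (v : ℂ) ^ 2) = Complex.exp (-(v : ℂ) ^ 2 / 2) := by
    congr 1
    ring
  rw [e1, e2, e3]
  ring

theorem Gi_norm (ξ : ℝ) {B v u : ℝ} (hB : 0 < B) (hu0 : 0 ≤ u) (huB : u ≤ B) :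
    ‖Gi ξ B v u‖ ≤ 2 * Real.exp (-v ^ 2 / 2) := by
  unfold Gi
  rw [norm_mul, Complex.norm_real, Real.norm_of_nonneg (wnonneg hB huB)]
  have h3 : 1 - u / B ≤ 1 := by
    have : 0 ≤ u / B := div_nonneg hu0 hB.le
    linarith
  have hn : ∀ c : ℝ, ‖Complex.exp (Complex.I * c * v) * Complex.exp (-(1 / 2) * (v : ℂ) ^ 2)‖ =
      Real.exp (-v ^ 2 / 2) := by
    intro c
    rw [norm_mul, Complex.norm_exp, Complex.norm_exp]
    have e1 : (Complex.I * c * v).re = 0 := by simp
    have e2 : (-(1 / 2) * (v : ℂ) ^ 2 : ℂ) = ((-v ^ 2 / 2 : ℝ) : ℂ) := by push_cast; ring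
    rw [e1, e2, Complex.ofReal_re, Real.exp_zero, one_mul]
  have h4 := norm_add_le (Complex.exp (Complex.I * ((u - ξ : ℝ) : ℂ) * v) *
    Complex.exp (-(1 / 2) * (v : ℂ) ^ 2)) (Complex.exp (Complex.I * ((-(u + ξ) : ℝ) : ℂ) * v) *
    Complex.exp (-(1 / 2) * (v : ℂ) ^ 2))
  rw [hn, hn] at h4
  have h5 := wnonneg hB huB
  calc (1 - u / B) * ‖Complex.exp (Complex.I * ((u - ξ : ℝ) : ℂ) * v) *
      Complex.exp (-(1 / 2) * (v : ℂ) ^ 2) + Complex.exp (Complex.I * ((-(u + ξ) : ℝ) : ℂ) * v) *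
      Complex.exp (-(1 / 2) * (v : ℂ) ^ 2)‖ ≤ 1 * (Real.exp (-v ^ 2 / 2) + Real.exp (-v ^ 2 / 2)) :=
        mul_le_mul h3 h4 (norm_nonneg _) (by norm_num)
    _ = 2 * Real.exp (-v ^ 2 / 2) := by ring

theorem VH_eq {B : ℝ} (hB : 0 < B) (ξ : ℝ) : VH (KB B) ξ = ((Real.sqrt (2 * Real.pi) *
    ((∫ u in (0 : ℝ)..B, (1 - u / B) * Real.exp (-(u - ξ) ^ 2 / 2)) +
      ∫ u in (0 : ℝ)..B, (1 - u / B) * Real.exp (-(u + ξ) ^ 2 / 2)) : ℝ) : ℂ) := by
  unfold VH
  simp only [Gi_eq]
  have hswap : ∫ v : ℝ, (∫ u in (0 : ℝ)..B, Gi ξ B v u) =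
      ∫ u in (0 : ℝ)..B, (∫ v : ℝ, Gi ξ B v u) := by
    simp only [intervalIntegral.integral_of_le hB.le]
    rw [MeasureTheory.integral_integral_swap]
    have hdom : Integrable (fun p : ℝ × ℝ => (2 * Real.exp (-p.1 ^ 2 / 2)))
        (volume.prod (volume.restrict (Ioc 0 B))) := by
      have := (gint.const_mul 2).mul_prod (ν := volume.restrict (Ioc 0 B))
        (g := fun _ => (1 : ℝ)) (integrable_const 1)
      simpa using this
    refine hdom.mono' (by
      apply Continuous.aestronglyMeasurable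
      simp only [Function.uncurry_def]
      unfold Gi
      fun_prop) ?_
    have hae : ∀ᵐ p : ℝ × ℝ ∂(volume.prod (volume.restrict (Ioc 0 B))), p.2 ∈ Ioc 0 B := by
      have h2 : ∀ᵐ u ∂(volume.restrict (Ioc 0 B)), u ∈ Ioc 0 B := ae_restrict_mem measurableSet_Ioc
      exact Measure.quasiMeasurePreserving_snd.ae h2
    filter_upwards [hae] with p hp
    simp only [Function.uncurry_def]
    exact Gi_norm ξ hB hp.1.le hp.2
  rw [hswap]
  have h2 : ∀ u : ℝ, (∫ v : ℝ, Gi ξ B v u) = ((Real.sqrt (2 * Real.pi) *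
      ((1 - u / B) * Real.exp (-(u - ξ) ^ 2 / 2) + (1 - u / B) * Real.exp (-(u + ξ) ^ 2 / 2)) : ℝ) : ℂ) := by
    intro u
    unfold Gi
    rw [integral_const_mul, integral_add (gauss_int _) (gauss_int _), gauss_c, gauss_c, neg_sq]
    push_cast
    ring
  simp only [h2]
  rw [intervalIntegral.integral_ofReal]
  congr 1
  rw [intervalIntegral.integral_const_mul, intervalIntegral.integral_add]
  · apply Continuous.intervalIntegrable
    fun_prop
  · apply Continuous.intervalIntegrable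
    fun_prop

theorem t_KV : S_KV := by
  refine ⟨32, by norm_num, fun B hB => ?_⟩
  have hB0 : 0 < B := by linarith
  refine ⟨⟨KB_diff hB0, fun x => ?_, fun x => ?_, fun z hz => ?_⟩, fun n _ => ?_, KB_im hB,
    fun z hz => ?_, KB_norm hB⟩
  · rw [KB_real, Complex.ofReal_im]
  · rw [KB_real, Complex.norm_real, Real.norm_of_nonneg (KR_nonneg hB0 x)]
    exact (KR_le hB0 x).trans (mul_le_mul_of_nonneg_left (exp_half x) hB0.le)
  · have h1 := norm_gen hB z B hz (by
      have := mul_le_mul_of_nonneg_left hz hB0.le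
      linarith)
    refine h1.trans ?_
    have h2 := exp_half z.re
    have h3 : 0 ≤ B * Real.exp B := by positivity
    have h4 := Real.exp_pos (-z.re ^ 2 / 4)
    calc 2 * B * Real.exp B * Real.exp (-z.re ^ 2 / 2) =
        2 * (B * Real.exp B * Real.exp (-z.re ^ 2 / 2)) := by ring
      _ ≤ 2 * (B * Real.exp B * Real.exp (-z.re ^ 2 / 4)) := by
          have := mul_le_mul_of_nonneg_left h2 h3
          linarith
      _ ≤ 32 * (B * Real.exp B * Real.exp (-z.re ^ 2 / 4)) := by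
          have := mul_nonneg h3 h4.le
          linarith
      _ = 32 * B * Real.exp B * Real.exp (-z.re ^ 2 / 4) := by ring
  · exact VH_eq hB0 _
  · have hy1 : |z.im| ≤ 1 := by nlinarith [abs_nonneg z.im]
    have h1 := norm_gen hB z 1 hy1 (by linarith)
    have h2 := exp_half z.re
    have h4 := Real.exp_pos (-z.re ^ 2 / 4)
    have h5 : Real.exp 1 ≤ 3 := by
      have := Real.exp_one_lt_d9
      linarith
    have h6 := Real.exp_pos (-z.re ^ 2 / 2)
    calc |(KB B z).re| ≤ ‖KB B z‖ := Complex.abs_re_le_norm _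
      _ ≤ 2 * B * Real.exp 1 * Real.exp (-z.re ^ 2 / 2) := h1
      _ ≤ 2 * B * 3 * Real.exp (-z.re ^ 2 / 4) := by
          apply mul_le_mul _ h2 h6.le (by positivity)
          exact mul_le_mul_of_nonneg_left h5 (by positivity)
      _ ≤ 32 * B * Real.exp (-z.re ^ 2 / 4) := by
          have : 0 ≤ B * Real.exp (-z.re ^ 2 / 4) := by positivity
          nlinarith

end Pool.Agent.Y258.OJ.KV
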